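import Pool.Agent.W965.LU.Stms

/-! Project LU, part RNUM: a numerical inequality. -/

set_option autoImplicit false

namespace Pool.Agent.W883.LU.Rnum

open Pool.Agent.W965.LU

theorem main : S_RNUM := by
  intro h u p hh hu hp
  set q : ℕ := 2 ^ (h + 5) with hq
  have hq0 : 0 < q := by positivity
  set N1 : ℕ := (3 * u + 63) / 64 with hN1
  set N2 : ℕ := (h + 6) * (2 * p) with hN2
  have h1 : (q + 1) ^ (2 * p) ≤ 2 ^ N2 := by
    have : q + 1 ≤ 2 ^ (h + 6) := by
      have e1 : 2 ^ (h + 6) = q + q := by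
        rw [hq, pow_succ 2 (h + 5)]
        ring
      omega
    calc (q + 1) ^ (2 * p) ≤ (2 ^ (h + 6)) ^ (2 * p) := Nat.pow_le_pow_left this _
      _ = 2 ^ N2 := by rw [← pow_mul]
  have hN2' : 384 * N2 ≤ 14 * u := by
    have : N2 ≤ 14 * (h * p) := by
      rw [hN2]
      nlinarith
    have h3 : 384 * (h * p) ≤ u := by
      rw [← mul_assoc]
      exact hp
    omega
  have hsum : N1 + N2 ≤ u / 8 := by omega
  have h2 : (q + 1) ^ (2 ^ h * u) ≤ q ^ (2 ^ h * u) * 2 ^ N1 := by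
    have hqr : (0 : ℝ) < q := by exact_mod_cast hq0
    have e1 : (1 + 1 / (q : ℝ)) ^ (2 ^ h * u) ≤ (2 : ℝ) ^ N1 := by
      have e2 : (1 + 1 / (q : ℝ)) ≤ Real.exp (1 / q) := by
        have := Real.add_one_le_exp (1 / (q : ℝ))
        linarith
      have e3 : (1 + 1 / (q : ℝ)) ^ (2 ^ h * u) ≤ Real.exp (1 / q) ^ (2 ^ h * u) :=
        pow_le_pow_left₀ (by positivity) e2 _
      have e4 : Real.exp (1 / q) ^ (2 ^ h * u) = Real.exp ((u : ℝ) / 32) := by
        rw [← Real.exp_nat_mul]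
        congr 1
        rw [hq]
        push_cast
        rw [pow_add]
        field_simp
        norm_num
      have e5 : (2 : ℝ) ^ N1 = Real.exp (N1 * Real.log 2) := by
        rw [Real.exp_nat_mul, Real.exp_log (by norm_num)]
      rw [e4] at e3
      refine e3.trans ?_
      rw [e5]
      apply Real.exp_le_exp.2
      have e6 : 0.6931471803 < Real.log 2 := Real.log_two_gt_d9
      have e7 : (3 * u : ℝ) / 64 ≤ N1 := by
        have : 3 * u ≤ 64 * N1 := by omega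
        have : (3 * u : ℝ) ≤ 64 * N1 := by exact_mod_cast this
        linarith
      have e8 : (0 : ℝ) ≤ u := Nat.cast_nonneg u
      calc (u : ℝ) / 32 ≤ (3 * u : ℝ) / 64 * 0.6931471803 := by linarith
        _ ≤ N1 * Real.log 2 := mul_le_mul e7 e6.le (by norm_num) (Nat.cast_nonneg _)
    have e9 : ((q : ℝ) + 1) ^ (2 ^ h * u) ≤ (q : ℝ) ^ (2 ^ h * u) * 2 ^ N1 := by
      have : (q : ℝ) + 1 = q * (1 + 1 / (q : ℝ)) := by field_simp
      rw [this, mul_pow]
      exact mul_le_mul_of_nonneg_left e1 (by positivity)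
    exact_mod_cast e9
  calc (q + 1) ^ (2 * p + 2 ^ h * u) = (q + 1) ^ (2 * p) * (q + 1) ^ (2 ^ h * u) := pow_add _ _ _
    _ ≤ 2 ^ N2 * (q ^ (2 ^ h * u) * 2 ^ N1) := Nat.mul_le_mul h1 h2
    _ = 2 ^ (N1 + N2) * q ^ (2 ^ h * u) := by rw [pow_add]; ring
    _ ≤ 2 ^ (u / 8) * q ^ (2 ^ h * u) :=
        Nat.mul_le_mul_right _ (Nat.pow_le_pow_right (by norm_num) hsum)
    _ ≤ (2 ^ (u / 8) + 1) * q ^ (2 ^ h * u) := Nat.mul_le_mul_right _ (Nat.le_succ _)

end Pool.Agent.W883.LU.Rnum
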